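import Pool.Agent.AGU.Stmts

/-! Tank AGU, row GPF (helper62): the change of the Dirichlet form, for all functions at once. -/

set_option autoImplicit false

open scoped BigOperators Matrix

noncomputable section

namespace Pool.Agent.AGU.H62

variable {X : Type} [Fintype X] [DecidableEq X]

/-- the weighted vector of a matrix -/
def vv (k : X → ℝ) (M : Matrix X X ℂ) : EuclideanSpace ℂ (X × X) :=
  WithLp.toLp 2 fun p => (Real.sqrt (k p.1 * k p.2) : ℂ) * M p.1 p.2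

omit [Fintype X] [DecidableEq X] in
theorem vv_add (k : X → ℝ) (M M' : Matrix X X ℂ) : vv k (M + M') = vv k M + vv k M' := by
  ext p
  change (Real.sqrt (k p.1 * k p.2) : ℂ) * (M + M') p.1 p.2 =
    (Real.sqrt (k p.1 * k p.2) : ℂ) * M p.1 p.2 + (Real.sqrt (k p.1 * k p.2) : ℂ) * M' p.1 p.2
  rw [Matrix.add_apply, mul_add]

omit [DecidableEq X] in
theorem vv_sq {k : X → ℝ} (hk : ∀ a, 0 < k a) (M : Matrix X X ℂ) :
    ‖vv k M‖ ^ 2 = ∑ a, ∑ b, k a * k b * ‖M a b‖ ^ 2 := by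
  rw [EuclideanSpace.norm_sq_eq, Fintype.sum_prod_type]
  refine Finset.sum_congr rfl fun a _ => Finset.sum_congr rfl fun b _ => ?_
  change ‖(Real.sqrt (k a * k b) : ℂ) * M a b‖ ^ 2 = _
  have h0 : 0 ≤ k a * k b := (mul_pos (hk a) (hk b)).le
  rw [norm_mul, mul_pow, Complex.norm_real, Real.norm_eq_abs, sq_abs, Real.sq_sqrt h0]

omit [DecidableEq X] in
theorem vv_tr {k : X → ℝ} (hk : ∀ a, 0 < k a) (M : Matrix X X ℂ) : ‖vv k Mᵀ‖ = ‖vv k M‖ := by
  have h : ‖vv k Mᵀ‖ ^ 2 = ‖vv k M‖ ^ 2 := by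
    rw [vv_sq hk, vv_sq hk, Finset.sum_comm]
    refine Finset.sum_congr rfl fun a _ => Finset.sum_congr rfl fun b _ => ?_
    rw [Matrix.transpose_apply, mul_comm (k b)]
  exact (pow_left_inj₀ (norm_nonneg _) (norm_nonneg _) two_ne_zero).1 h

omit [DecidableEq X] in
theorem kk {G G' : Matrix X X ℂ} {k k' : X → ℝ} {z : X → ℂ} {d : ℝ} (h : Chg G G' k k' z d)
    (a : X) : (1 - d) * k a ≤ k' a ∧ k' a ≤ (1 + d) * k a := by
  have h1 := h.hk a
  have h2 := h.hz a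
  have h3 := abs_le.1 ((Complex.abs_im_le_norm (z a)).trans h2)
  constructor <;> nlinarith [h3.1, h3.2]

/-- one column -/
theorem col (hG : GwbStmt) {G G' : Matrix X X ℂ} {k k' : X → ℝ} {z : X → ℂ} {d : ℝ}
    (h : Chg G G' k k' z d) (u : X → ℂ) :
    ∑ a, k a * ‖∑ c, G' a c * (z c * u c)‖ ^ 2 ≤ (4 / 3 * d) ^ 2 * ∑ c, k c * ‖u c‖ ^ 2 := by
  obtain ⟨-, h2, -, -⟩ := hG X G' k' h.h1
  have hd := h.hd
  have h3 := h2 (fun c => z c * u c)
  have hk : ∀ a, 3 / 4 * k a ≤ k' a := by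
    intro a
    have := (kk h a).1
    have h0 := h.h0.hk a
    nlinarith [hd.2]
  calc ∑ a, k a * ‖∑ c, G' a c * (z c * u c)‖ ^ 2
      ≤ ∑ a, 4 / 3 * (k' a * ‖∑ c, G' a c * (z c * u c)‖ ^ 2) := by
        refine Finset.sum_le_sum fun a _ => ?_
        have h4 := hk a
        have h5 : 0 ≤ ‖∑ c, G' a c * (z c * u c)‖ ^ 2 := by positivity
        nlinarith
    _ = 4 / 3 * ∑ a, k' a * ‖∑ c, G' a c * (z c * u c)‖ ^ 2 := by rw [Finset.mul_sum]
    _ ≤ 4 / 3 * ∑ c, ‖z c * u c‖ ^ 2 / k' c := by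
        apply mul_le_mul_of_nonneg_left h3 (by norm_num)
    _ ≤ 4 / 3 * ∑ c, 4 / 3 * d ^ 2 * (k c * ‖u c‖ ^ 2) := by
        apply mul_le_mul_of_nonneg_left _ (by norm_num)
        refine Finset.sum_le_sum fun c _ => ?_
        have h0 := h.h0.hk c
        have h1 := h.h1.hk c
        rw [div_le_iff₀ h1, norm_mul, mul_pow]
        have h4 : ‖z c‖ ^ 2 ≤ (d * k c) ^ 2 :=
          pow_le_pow_left₀ (norm_nonneg _) (h.hz c) 2
        have h5 : 0 ≤ ‖u c‖ ^ 2 := by positivity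
        have h6 := hk c
        calc ‖z c‖ ^ 2 * ‖u c‖ ^ 2 ≤ (d * k c) ^ 2 * ‖u c‖ ^ 2 :=
              mul_le_mul_of_nonneg_right h4 h5
          _ = 4 / 3 * d ^ 2 * (k c * ‖u c‖ ^ 2) * (3 / 4 * k c) := by ring
          _ ≤ 4 / 3 * d ^ 2 * (k c * ‖u c‖ ^ 2) * k' c := by
              apply mul_le_mul_of_nonneg_left h6
              positivity
    _ = (4 / 3 * d) ^ 2 * ∑ c, k c * ‖u c‖ ^ 2 := by
        rw [← Finset.mul_sum]
        ring

theorem left (hG : GwbStmt) {G G' : Matrix X X ℂ} {k k' : X → ℝ} {z : X → ℂ} {d : ℝ}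
    (h : Chg G G' k k' z d) (M : Matrix X X ℂ) :
    ‖vv k (G' * Matrix.diagonal z * M)‖ ≤ 4 / 3 * d * ‖vv k M‖ := by
  have hd := h.hd
  have hk := h.h0.hk
  apply (pow_le_pow_iff_left₀ (norm_nonneg _) (mul_nonneg (by linarith [hd.1])
    (norm_nonneg _)) two_ne_zero).1
  rw [mul_pow, vv_sq hk, vv_sq hk, Finset.sum_comm]
  have h1 : ∀ b, ∑ a, k a * k b * ‖(G' * Matrix.diagonal z * M) a b‖ ^ 2 ≤
      k b * ((4 / 3 * d) ^ 2 * ∑ c, k c * ‖M c b‖ ^ 2) := by
    intro b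
    have h2 := col hG h (fun c => M c b)
    have h3 : ∀ a, (G' * Matrix.diagonal z * M) a b = ∑ c, G' a c * (z c * M c b) := by
      intro a
      rw [Matrix.mul_apply]
      refine Finset.sum_congr rfl fun c _ => ?_
      rw [Matrix.mul_diagonal, mul_assoc]
    calc ∑ a, k a * k b * ‖(G' * Matrix.diagonal z * M) a b‖ ^ 2
        = k b * ∑ a, k a * ‖∑ c, G' a c * (z c * M c b)‖ ^ 2 := by
          rw [Finset.mul_sum]
          refine Finset.sum_congr rfl fun a _ => ?_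
          rw [h3 a]
          ring
      _ ≤ _ := mul_le_mul_of_nonneg_left h2 (hk b).le
  calc ∑ b, ∑ a, k a * k b * ‖(G' * Matrix.diagonal z * M) a b‖ ^ 2
      ≤ ∑ b, k b * ((4 / 3 * d) ^ 2 * ∑ c, k c * ‖M c b‖ ^ 2) :=
        Finset.sum_le_sum fun b _ => h1 b
    _ = (4 / 3 * d) ^ 2 * ∑ b, ∑ c, k c * k b * ‖M c b‖ ^ 2 := by
        rw [Finset.mul_sum]
        refine Finset.sum_congr rfl fun b _ => ?_
        rw [← mul_assoc, mul_comm (k b), mul_assoc, Finset.mul_sum]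
        congr 1
        refine Finset.sum_congr rfl fun c _ => ?_
        ring
    _ = (4 / 3 * d) ^ 2 * ∑ a, ∑ b, k a * k b * ‖M a b‖ ^ 2 := by rw [Finset.sum_comm]

theorem right (hG : GwbStmt) {G G' : Matrix X X ℂ} {k k' : X → ℝ} {z : X → ℂ} {d : ℝ}
    (h : Chg G G' k k' z d) (M : Matrix X X ℂ) :
    ‖vv k (M * Matrix.diagonal z * G')‖ ≤ 4 / 3 * d * ‖vv k M‖ := by
  have h1 := left hG h Mᵀ
  rw [vv_tr h.h0.hk M] at h1
  have h2 : G'ᵀ = G' := by
    ext a b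
    exact h.h1.hs b a
  have h3 : (G' * Matrix.diagonal z * Mᵀ) = (M * Matrix.diagonal z * G')ᵀ := by
    rw [Matrix.transpose_mul, Matrix.transpose_mul, Matrix.diagonal_transpose, h2, mul_assoc]
  rw [h3, vv_tr h.h0.hk] at h1
  exact h1

theorem ident {G G' : Matrix X X ℂ} {k k' : X → ℝ} {z : X → ℂ} {d : ℝ}
    (h : Chg G G' k k' z d) (f : X → ℂ) :
    Matrix.diagonal f * G' - G' * Matrix.diagonal f =
      (Matrix.diagonal f * G - G * Matrix.diagonal f) +
      (G' * Matrix.diagonal z * (Matrix.diagonal f * G - G * Matrix.diagonal f) +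
        (Matrix.diagonal f * G - G * Matrix.diagonal f) * Matrix.diagonal z * G' +
        G' * Matrix.diagonal z * ((Matrix.diagonal f * G - G * Matrix.diagonal f) *
          Matrix.diagonal z * G')) := by
  have h1 : G' = G + G * Matrix.diagonal z * G' := by
    ext a b
    rw [Matrix.add_apply, Matrix.mul_apply, h.hr a b]
    congr 1
    refine Finset.sum_congr rfl fun c _ => ?_
    rw [Matrix.mul_diagonal]
  have h2 : G' = G + G' * Matrix.diagonal z * G := by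
    ext a b
    rw [Matrix.add_apply, Matrix.mul_apply, h.h1.hs a b, h.hr b a, h.h0.hs b a]
    congr 1
    refine Finset.sum_congr rfl fun c _ => ?_
    rw [Matrix.mul_diagonal, h.h1.hs c a, h.h0.hs b c]
    ring
  have h3 : Matrix.diagonal f * Matrix.diagonal z = Matrix.diagonal z * Matrix.diagonal f := by
    rw [Matrix.diagonal_mul_diagonal, Matrix.diagonal_mul_diagonal]
    congr 1
    ext a
    ring
  generalize Matrix.diagonal f = D at *
  generalize Matrix.diagonal z = Z at *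
  have h4 : G + G * Z * G' - G' = 0 := by rw [← h1, sub_self]
  have h5 : G' - G - G' * Z * G = 0 := by rw [sub_sub, ← h2, sub_self]
  have h6 : Z * D - D * Z = 0 := by rw [h3, sub_self]
  have key : (1 + G' * Z) * (1 - G * Z) = 1 := by
    have e : (1 + G' * Z) * (1 - G * Z) = 1 + (G' - G - G' * Z * G) * Z := by noncomm_ring
    rw [e, h5, zero_mul, add_zero]
  have e1 : (D * G - G * D) + (D * G - G * D) * Z * G' = (1 - G * Z) * (D * G' - G' * D) := by
    have e : (D * G - G * D) + (D * G - G * D) * Z * G' - (1 - G * Z) * (D * G' - G' * D) =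
        D * (G + G * Z * G' - G') - (G + G * Z * G' - G') * D + G * (Z * D - D * Z) * G' := by
      noncomm_ring
    rw [h4, h6] at e
    rw [← sub_eq_zero, e]
    simp
  have e2 : D * G' - G' * D =
      (1 + G' * Z) * ((D * G - G * D) + (D * G - G * D) * Z * G') := by
    rw [e1, ← mul_assoc, key, one_mul]
  rw [e2]
  noncomm_ring

theorem ef_eq {k : X → ℝ} (G : Matrix X X ℂ) (f : X → ℝ) (a b : X) :
    k a * k b * ‖(Matrix.diagonal (fun a => (f a : ℂ)) * G -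
      G * Matrix.diagonal (fun a => (f a : ℂ))) a b‖ ^ 2 =
      k a * k b * ‖G a b‖ ^ 2 * (f a - f b) ^ 2 := by
  rw [Matrix.sub_apply, Matrix.diagonal_mul, Matrix.mul_diagonal]
  have e : (f a : ℂ) * G a b - G a b * (f b : ℂ) = ((f a - f b : ℝ) : ℂ) * G a b := by
    push_cast
    ring
  rw [e, norm_mul, Complex.norm_real, mul_pow, Real.norm_eq_abs, sq_abs]
  ring

theorem gpf (hG : GwbStmt) : GpfStmt := by
  intro X _ _ G G' k k' z d h f
  have hd := h.hd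
  have hk := h.h0.hk
  set F : Matrix X X ℂ := Matrix.diagonal (fun a => (f a : ℂ)) * G -
      G * Matrix.diagonal (fun a => (f a : ℂ)) with hF
  set F' : Matrix X X ℂ := Matrix.diagonal (fun a => (f a : ℂ)) * G' -
      G' * Matrix.diagonal (fun a => (f a : ℂ)) with hF'
  set N : ℝ := ‖vv k F‖ with hN
  set N' : ℝ := ‖vv k F'‖ with hN'
  have hN0 : 0 ≤ N := norm_nonneg _
  have hN0' : 0 ≤ N' := norm_nonneg _
  have hEF : EF G k f = 1 / 2 * N ^ 2 := by
    unfold EF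
    rw [hN, vv_sq hk]
    congr 1
    exact Finset.sum_congr rfl fun a _ => Finset.sum_congr rfl fun b _ => (ef_eq G f a b).symm
  have hid := ident h (fun a => (f a : ℂ))
  rw [← hF, ← hF'] at hid
  -- the norm of the difference
  have hdiff : ‖vv k (G' * Matrix.diagonal z * F + F * Matrix.diagonal z * G' +
      G' * Matrix.diagonal z * (F * Matrix.diagonal z * G'))‖ ≤ 7 / 2 * d * N := by
    rw [vv_add, vv_add]
    have h1 := left hG h F
    have h2 := right hG h F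
    have h3 := left hG h (F * Matrix.diagonal z * G')
    have h4 : 4 / 3 * d * ‖vv k (F * Matrix.diagonal z * G')‖ ≤ 4 / 3 * d * (4 / 3 * d * N) :=
      mul_le_mul_of_nonneg_left h2 (by linarith [hd.1])
    have h5 : 4 / 3 * d * (4 / 3 * d * N) ≤ 4 / 9 * d * N := by
      have : 0 ≤ d * N := mul_nonneg hd.1 hN0
      nlinarith [hd.2]
    have h6 : 0 ≤ d * N := mul_nonneg hd.1 hN0
    refine (norm_add_le _ _).trans ?_
    have h7 := norm_add_le (vv k (G' * Matrix.diagonal z * F)) (vv k (F * Matrix.diagonal z * G'))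
    linarith
  have hup : N' ≤ (1 + 7 / 2 * d) * N := by
    have e : vv k F' = vv k F + vv k (G' * Matrix.diagonal z * F + F * Matrix.diagonal z * G' +
        G' * Matrix.diagonal z * (F * Matrix.diagonal z * G')) := by
      rw [← vv_add, ← hid]
    rw [hN', e]
    refine (norm_add_le _ _).trans ?_
    linarith
  have hlo : (1 - 7 / 2 * d) * N ≤ N' := by
    have e : vv k F = vv k F' - vv k (G' * Matrix.diagonal z * F + F * Matrix.diagonal z * G' +
        G' * Matrix.diagonal z * (F * Matrix.diagonal z * G')) := by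
      rw [eq_sub_iff_add_eq, ← vv_add, ← hid]
    have h1 : N ≤ N' + 7 / 2 * d * N := by
      calc N = ‖vv k F' - vv k (G' * Matrix.diagonal z * F + F * Matrix.diagonal z * G' +
        G' * Matrix.diagonal z * (F * Matrix.diagonal z * G'))‖ := by rw [hN, e]
        _ ≤ _ := (norm_sub_le _ _).trans (by linarith)
    linarith
  -- the weights
  have hEF1 : EF G' k' f ≤ (1 + d) ^ 2 * (1 / 2 * N' ^ 2) := by
    unfold EF
    rw [hN', vv_sq hk]
    have : (1 + d) ^ 2 * (1 / 2 * ∑ a, ∑ b, k a * k b * ‖F' a b‖ ^ 2) =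
        1 / 2 * ∑ a, ∑ b, (1 + d) ^ 2 * (k a * k b * ‖F' a b‖ ^ 2) := by
      simp only [Finset.mul_sum]
      refine Finset.sum_congr rfl fun a _ => Finset.sum_congr rfl fun b _ => ?_
      ring
    rw [this]
    refine mul_le_mul_of_nonneg_left ?_ (by norm_num)
    refine Finset.sum_le_sum fun a _ => Finset.sum_le_sum fun b _ => ?_
    rw [hF', ef_eq (k := k) G' f a b]
    have ha := kk h a
    have hb := kk h b
    have ha0 := hk a
    have hb0 := hk b
    have h1 : k' a * k' b ≤ ((1 + d) * k a) * ((1 + d) * k b) :=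
      mul_le_mul ha.2 hb.2 (h.h1.hk b).le (by nlinarith [hd.1])
    have h2 : 0 ≤ ‖G' a b‖ ^ 2 * (f a - f b) ^ 2 := by positivity
    calc k' a * k' b * ‖G' a b‖ ^ 2 * (f a - f b) ^ 2
        = k' a * k' b * (‖G' a b‖ ^ 2 * (f a - f b) ^ 2) := by ring
      _ ≤ ((1 + d) * k a) * ((1 + d) * k b) * (‖G' a b‖ ^ 2 * (f a - f b) ^ 2) :=
          mul_le_mul_of_nonneg_right h1 h2
      _ = (1 + d) ^ 2 * (k a * k b * ‖G' a b‖ ^ 2 * (f a - f b) ^ 2) := by ring
  have hEF2 : (1 - d) ^ 2 * (1 / 2 * N' ^ 2) ≤ EF G' k' f := by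
    unfold EF
    rw [hN', vv_sq hk]
    have : (1 - d) ^ 2 * (1 / 2 * ∑ a, ∑ b, k a * k b * ‖F' a b‖ ^ 2) =
        1 / 2 * ∑ a, ∑ b, (1 - d) ^ 2 * (k a * k b * ‖F' a b‖ ^ 2) := by
      simp only [Finset.mul_sum]
      refine Finset.sum_congr rfl fun a _ => Finset.sum_congr rfl fun b _ => ?_
      ring
    rw [this]
    refine mul_le_mul_of_nonneg_left ?_ (by norm_num)
    refine Finset.sum_le_sum fun a _ => Finset.sum_le_sum fun b _ => ?_
    rw [hF', ef_eq (k := k) G' f a b]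
    have ha := kk h a
    have hb := kk h b
    have ha0 := hk a
    have hb0 := hk b
    have h1 : ((1 - d) * k a) * ((1 - d) * k b) ≤ k' a * k' b :=
      mul_le_mul ha.1 hb.1 (by nlinarith [hd.2]) (h.h1.hk a).le
    have h2 : 0 ≤ ‖G' a b‖ ^ 2 * (f a - f b) ^ 2 := by positivity
    calc (1 - d) ^ 2 * (k a * k b * ‖G' a b‖ ^ 2 * (f a - f b) ^ 2)
        = ((1 - d) * k a) * ((1 - d) * k b) * (‖G' a b‖ ^ 2 * (f a - f b) ^ 2) := by ring
      _ ≤ k' a * k' b * (‖G' a b‖ ^ 2 * (f a - f b) ^ 2) := mul_le_mul_of_nonneg_right h1 h2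
      _ = k' a * k' b * ‖G' a b‖ ^ 2 * (f a - f b) ^ 2 := by ring
  have hNN : 0 ≤ N ^ 2 := sq_nonneg _
  have hup2 : N' ^ 2 ≤ (1 + 7 / 2 * d) ^ 2 * N ^ 2 := by
    rw [← mul_pow]
    exact pow_le_pow_left₀ hN0' hup 2
  have hlo2 : (1 - 7 / 2 * d) ^ 2 * N ^ 2 ≤ N' ^ 2 := by
    rw [← mul_pow]
    exact pow_le_pow_left₀ (mul_nonneg (by linarith [hd.2]) hN0) hlo 2
  rw [hEF, abs_le]
  constructor
  · have h1 : (1 - d) ^ 2 * (1 / 2 * ((1 - 7 / 2 * d) ^ 2 * N ^ 2)) ≤ EF G' k' f := by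
      refine le_trans ?_ hEF2
      gcongr
    have h2 : 1 - 20 * d ≤ (1 - d) ^ 2 * (1 - 7 / 2 * d) ^ 2 := by
      have h3 : 1 - 9 / 2 * d ≤ (1 - d) * (1 - 7 / 2 * d) := by nlinarith [hd.1]
      rcases le_or_gt 0 (1 - 9 / 2 * d) with h4 | h4
      · have h5 : (1 - 9 / 2 * d) ^ 2 ≤ ((1 - d) * (1 - 7 / 2 * d)) ^ 2 :=
          pow_le_pow_left₀ h4 h3 2
        rw [mul_pow] at h5
        nlinarith [hd.1, sq_nonneg d]
      · have h5 : 0 ≤ (1 - d) ^ 2 * (1 - 7 / 2 * d) ^ 2 := by positivity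
        linarith
    have h3 : (1 - 20 * d) * (1 / 2 * N ^ 2) ≤
        (1 - d) ^ 2 * (1 - 7 / 2 * d) ^ 2 * (1 / 2 * N ^ 2) :=
      mul_le_mul_of_nonneg_right h2 (by positivity)
    have h4 : (1 - d) ^ 2 * (1 / 2 * ((1 - 7 / 2 * d) ^ 2 * N ^ 2)) =
        (1 - d) ^ 2 * (1 - 7 / 2 * d) ^ 2 * (1 / 2 * N ^ 2) := by ring
    rw [h4] at h1
    linarith
  · have h1 : EF G' k' f ≤ (1 + d) ^ 2 * (1 / 2 * ((1 + 7 / 2 * d) ^ 2 * N ^ 2)) := by
      refine le_trans hEF1 ?_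
      gcongr
    have h2 : (1 + d) ^ 2 * (1 + 7 / 2 * d) ^ 2 ≤ 1 + 20 * d := by
      have h3 : (1 + d) * (1 + 7 / 2 * d) ≤ 1 + 43 / 8 * d := by
        nlinarith [hd.1, hd.2, mul_nonneg hd.1 (sub_nonneg.2 hd.2)]
      have h4 : 0 ≤ (1 + d) * (1 + 7 / 2 * d) := by
        have := hd.1
        positivity
      have h5 : ((1 + d) * (1 + 7 / 2 * d)) ^ 2 ≤ (1 + 43 / 8 * d) ^ 2 :=
        pow_le_pow_left₀ h4 h3 2
      rw [mul_pow] at h5
      nlinarith [hd.1, hd.2, mul_nonneg hd.1 (sub_nonneg.2 hd.2)]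
    have h3 : (1 + d) ^ 2 * (1 + 7 / 2 * d) ^ 2 * (1 / 2 * N ^ 2) ≤
        (1 + 20 * d) * (1 / 2 * N ^ 2) :=
      mul_le_mul_of_nonneg_right h2 (by positivity)
    have h4 : (1 + d) ^ 2 * (1 / 2 * ((1 + 7 / 2 * d) ^ 2 * N ^ 2)) =
        (1 + d) ^ 2 * (1 + 7 / 2 * d) ^ 2 * (1 / 2 * N ^ 2) := by ring
    rw [h4] at h1
    linarith

end Pool.Agent.AGU.H62
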